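import Pool.Agent.Helper33.Mono.BoxCount
import Pool.Agent.Helper20.Mono.GoalsH

/-! V1: lattice points of the multiples of an open simplex. -/

namespace Mono

open Finset Filter Topology Mono.H33

variable {n : ℕ}

theorem volZ_empty (τ : Finset (Fin n → ℤ)) : volZ ∅ τ = vol τ := by
  unfold volZ vol
  congr 1
  ext x
  simp

/-- The half-open box `(0,1]^τ` with integral `ψ`. -/
def RBox (τ : Finset (Fin n → ℤ)) : Set (Fin n → ℤ) :=
  {b | ∃ c : (Fin n → ℤ) → ℝ, (∀ u ∈ τ, 0 < c u ∧ c u ≤ 1) ∧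
    toR b = ∑ u ∈ τ, c u • toR u ∧ ∃ z : ℤ, ∑ u ∈ τ, c u = z}

theorem refl_mem (τ : Finset (Fin n → ℤ)) {b : Fin n → ℤ} (hb : b ∈ RBox τ) :
    (∑ u ∈ τ, u) - b ∈ Box ∅ τ 0 := by
  obtain ⟨c, hc, h1, z, hz⟩ := hb
  refine ⟨fun u => 1 - c u, fun u hu => ⟨by have := (hc u hu).2; linarith,
    by have := (hc u hu).1; linarith⟩, ?_, (τ.card : ℤ) - z, ?_⟩
  · rw [toR_sub, toR_sum, h1, ← Finset.sum_sub_distrib]
    exact Finset.sum_congr rfl fun u _ => by rw [sub_smul, one_smul]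
  · rw [Finset.sdiff_empty, Finset.sum_sub_distrib, hz]
    simp

theorem refl_mem' (τ : Finset (Fin n → ℤ)) {b : Fin n → ℤ} (hb : b ∈ Box ∅ τ 0) :
    (∑ u ∈ τ, u) - b ∈ RBox τ := by
  obtain ⟨c, hc, h1, z, hz⟩ := hb
  rw [Finset.sdiff_empty, sub_zero] at hz
  refine ⟨fun u => 1 - c u, fun u hu => ⟨by have := (hc u hu).2; linarith,
    by have := (hc u hu).1; linarith⟩, ?_, (τ.card : ℤ) - z, ?_⟩
  · rw [toR_sub, toR_sum, h1, ← Finset.sum_sub_distrib]
    exact Finset.sum_congr rfl fun u _ => by rw [sub_smul, one_smul]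
  · rw [Finset.sum_sub_distrib, hz]
    simp

theorem card_rbox {τ : Finset (Fin n → ℤ)} (h0 : τ.Nonempty) (hτ : Indep τ) :
    Nat.card (RBox τ) = vol τ := by
  obtain ⟨l, hl⟩ := exists_functional hτ (fun _ => 1)
  obtain ⟨u₀, hu₀⟩ := h0
  rw [← volZ_empty, ← card_box (Z := ∅) (l := l) (fun u hu => by simpa using hl u hu) hτ
    (u₀ := u₀) (by simpa using hu₀) 0 (x₀ := 0) (AddSubgroup.zero_mem _) (z₀ := 0) (by simp)]
  refine Nat.card_congr ⟨fun b => ⟨(∑ u ∈ τ, u) - b.1, refl_mem τ b.2⟩,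
    fun b => ⟨(∑ u ∈ τ, u) - b.1, refl_mem' τ b.2⟩, ?_, ?_⟩
  · intro b
    apply Subtype.ext
    simp
  · intro b
    apply Subtype.ext
    simp

/-- Lattice points of the `k`-th multiple of the open simplex. -/
def XX (τ : Finset (Fin n → ℤ)) (k : ℕ) : Type :=
  {x : Fin n → ℤ // ∃ c : (Fin n → ℤ) → ℝ, (∀ u ∈ τ, 0 < c u) ∧
      toR x = ∑ u ∈ τ, c u • toR u ∧ ∑ u ∈ τ, c u = k}

theorem exists_p (τ : Finset (Fin n → ℤ)) :
    ∃ p : RBox τ → ℕ, (∀ b, p b ≤ τ.card) ∧ ∀ b : RBox τ, ∃ c : (Fin n → ℤ) → ℝ,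
      (∀ u ∈ τ, 0 < c u ∧ c u ≤ 1) ∧ toR b.1 = ∑ u ∈ τ, c u • toR u ∧ ∑ u ∈ τ, c u = p b := by
  have h : ∀ b : RBox τ, ∃ m : ℕ, m ≤ τ.card ∧ ∃ c : (Fin n → ℤ) → ℝ,
      (∀ u ∈ τ, 0 < c u ∧ c u ≤ 1) ∧ toR b.1 = ∑ u ∈ τ, c u • toR u ∧ ∑ u ∈ τ, c u = m := by
    rintro ⟨b, c, hc, h1, z, hz⟩
    have hz0 : (0 : ℝ) ≤ z := by
      rw [← hz]
      exact Finset.sum_nonneg fun u hu => (hc u hu).1.le
    have hz0' : 0 ≤ z := by exact_mod_cast hz0
    obtain ⟨m, rfl⟩ := Int.eq_ofNat_of_zero_le hz0'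
    refine ⟨m, ?_, c, hc, h1, by simpa using hz⟩
    have h2 : ((m : ℤ) : ℝ) ≤ τ.card := by
      rw [← hz]
      calc ∑ u ∈ τ, c u ≤ ∑ u ∈ τ, (1 : ℝ) := Finset.sum_le_sum fun u hu => (hc u hu).2
        _ = τ.card := by simp
    exact_mod_cast h2
  choose p hp using h
  exact ⟨p, fun b => (hp b).1, fun b => (hp b).2⟩

theorem card_XX {τ : Finset (Fin n → ℤ)} (hτ : Indep τ) [Fintype (RBox τ)]
    (p : RBox τ → ℕ) (hp : ∀ b, p b ≤ τ.card)
    (hc : ∀ b : RBox τ, ∃ c : (Fin n → ℤ) → ℝ,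
      (∀ u ∈ τ, 0 < c u ∧ c u ≤ 1) ∧ toR b.1 = ∑ u ∈ τ, c u • toR u ∧ ∑ u ∈ τ, c u = p b)
    (k : ℕ) (hk : τ.card ≤ k) :
    Nat.card (XX τ k) = ∑ b : RBox τ, Nat.multichoose τ.card (k - p b) := by
  classical
  choose c hc1 hc2 hc3 using hc
  have hcard : ∀ j : ℕ, Nat.card {m : τ → ℕ // ∑ u, m u = j} = Nat.multichoose τ.card j := by
    intro j
    rw [← Nat.card_congr (Sym.equivNatSumOfFintype τ j), Nat.card_eq_fintype_card,
      Sym.card_sym_eq_multichoose, Fintype.card_coe]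
  have hfin : ∀ j : ℕ, Finite {m : τ → ℕ // ∑ u, m u = j} := fun j =>
    Finite.of_equiv _ (Sym.equivNatSumOfFintype τ j)
  have hsumm : ∀ (b : RBox τ) (m : τ → ℕ), toR (b.1 + ∑ u : τ, (m u : ℤ) • (u : Fin n → ℤ)) =
      ∑ u ∈ τ, (c b u + if h : u ∈ τ then (m ⟨u, h⟩ : ℝ) else 0) • toR u := by
    intro b m
    rw [toR_add, hc2 b, toR_sum]
    simp only [add_smul]
    rw [Finset.sum_add_distrib]
    congr 1
    rw [← Finset.sum_coe_sort τ]
    refine Finset.sum_congr rfl fun u _ => ?_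
    rw [toR_smul]
    simp
  have hadd : ∀ (b : RBox τ) (m : τ → ℕ),
      ∑ u ∈ τ, (c b u + if h : u ∈ τ then (m ⟨u, h⟩ : ℝ) else 0) = p b + ((∑ u, m u : ℕ) : ℝ) := by
    intro b m
    rw [Finset.sum_add_distrib, hc3 b]
    congr 1
    rw [← Finset.sum_coe_sort τ]
    push_cast
    exact Finset.sum_congr rfl fun u _ => by simp
  let f : (Σ b : RBox τ, {m : τ → ℕ // ∑ u, m u = k - p b}) → XX τ k := fun q =>
    ⟨q.1.1 + ∑ u : τ, (q.2.1 u : ℤ) • (u : Fin n → ℤ),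
      fun u => c q.1 u + if h : u ∈ τ then (q.2.1 ⟨u, h⟩ : ℝ) else 0, by
        intro u hu
        have := (hc1 q.1 u hu).1
        simp only [hu, dif_pos]
        positivity, hsumm q.1 q.2.1, by
        rw [hadd, q.2.2]
        have := (hp q.1).trans hk
        push_cast [this]
        ring⟩
  have hf : Function.Bijective f := by
    constructor
    · rintro ⟨b, m, hm⟩ ⟨b', m', hm'⟩ h
      have h1 : b.1 + ∑ u : τ, (m u : ℤ) • (u : Fin n → ℤ) =
        b'.1 + ∑ u : τ, (m' u : ℤ) • (u : Fin n → ℤ) := congrArg Subtype.val h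
      have h2 := congrArg toR h1
      rw [hsumm, hsumm] at h2
      have h3 := hτ.coeff_eq h2
      have h4 : m = m' := by
        funext u
        have h5 := h3 u.1 u.2
        simp only [u.2, dif_pos] at h5
        have h6 := hc1 b u.1 u.2
        have h7 := hc1 b' u.1 u.2
        have h8 : (m u : ℝ) < m' u + 1 := by linarith
        have h9 : (m' u : ℝ) < m u + 1 := by linarith
        have h8' : m u < m' u + 1 := by exact_mod_cast h8
        have h9' : m' u < m u + 1 := by exact_mod_cast h9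
        omega
      subst h4
      have h5 : b = b' := by
        apply Subtype.ext
        exact add_right_cancel h1
      subst h5
      rfl
    · rintro ⟨x, d, hd, hx, hk'⟩
      have hceil : ∀ u ∈ τ, ((⌈d u⌉₊ - 1 : ℕ) : ℝ) < d u ∧ d u ≤ ((⌈d u⌉₊ - 1 : ℕ) : ℝ) + 1 := by
        intro u hu
        have h1 := hd u hu
        have h2 : 0 < ⌈d u⌉₊ := Nat.ceil_pos.2 h1
        have h3 : ((⌈d u⌉₊ - 1 : ℕ) : ℝ) = (⌈d u⌉₊ : ℝ) - 1 := by
          rw [Nat.cast_sub h2]; simp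
        rw [h3]
        have h4 := Nat.ceil_lt_add_one h1.le
        have h5 := Nat.le_ceil (d u)
        constructor <;> linarith
      set m : τ → ℕ := fun u => ⌈d u⌉₊ - 1 with hm
      set y : Fin n → ℤ := x - ∑ u : τ, (m u : ℤ) • (u : Fin n → ℤ) with hy
      have hyc : toR y = ∑ u ∈ τ, (d u - ((⌈d u⌉₊ - 1 : ℕ) : ℝ)) • toR u := by
        rw [hy, toR_sub, hx, toR_sum]
        simp only [sub_smul]
        rw [Finset.sum_sub_distrib]
        congr 1
        rw [← Finset.sum_coe_sort τ]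
        refine Finset.sum_congr rfl fun u _ => ?_
        rw [toR_smul]
        simp [hm]
      have hsy : ∑ u ∈ τ, (d u - ((⌈d u⌉₊ - 1 : ℕ) : ℝ)) = (k : ℝ) - ((∑ u, m u : ℕ) : ℝ) := by
        rw [Finset.sum_sub_distrib, hk']
        congr 1
        rw [← Finset.sum_coe_sort τ]
        push_cast
        rfl
      have hyB : y ∈ RBox τ := by
        refine ⟨fun u => d u - ((⌈d u⌉₊ - 1 : ℕ) : ℝ), fun u hu => ?_, hyc,
          (k : ℤ) - ((∑ u, m u : ℕ) : ℤ), ?_⟩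
        · have := hceil u hu
          constructor <;> linarith
        · rw [hsy]
          push_cast
          ring
      have hpy : (p ⟨y, hyB⟩ : ℝ) = (k : ℝ) - ((∑ u, m u : ℕ) : ℝ) := by
        rw [← hc3 ⟨y, hyB⟩, ← hsy]
        refine Finset.sum_congr rfl fun u hu => ?_
        refine hτ.coeff_eq (c := c ⟨y, hyB⟩)
          (d := fun u => d u - ((⌈d u⌉₊ - 1 : ℕ) : ℝ)) ?_ u hu
        rw [← hc2 ⟨y, hyB⟩]
        exact hyc
      refine ⟨⟨⟨y, hyB⟩, m, ?_⟩, ?_⟩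
      · have h1 : (p ⟨y, hyB⟩ : ℝ) + ((∑ u, m u : ℕ) : ℝ) = k := by rw [hpy]; ring
        have h2 : p ⟨y, hyB⟩ + ∑ u, m u = k := by exact_mod_cast h1
        omega
      · apply Subtype.ext
        change y + ∑ u : τ, (m u : ℤ) • (u : Fin n → ℤ) = x
        rw [hy]
        abel
  rw [← Nat.card_congr (Equiv.ofBijective f hf)]
  have : ∀ b : RBox τ, Finite {m : τ → ℕ // ∑ u, m u = k - p b} := fun b => hfin _
  rw [Nat.card_sigma]
  exact Finset.sum_congr rfl fun b _ => hcard _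

theorem tendsto_multichoose (d p : ℕ) :
    Tendsto (fun k : ℕ => (d.factorial : ℝ) * (Nat.multichoose (d + 1) (k - p) : ℝ) / (k : ℝ) ^ d)
      atTop (𝓝 1) := by
  have hN : Tendsto (fun k : ℕ => d + (k - p)) atTop atTop :=
    tendsto_atTop_mono (fun k => Nat.le_add_left _ _) (tendsto_sub_atTop_nat p)
  have hN' : Tendsto (fun k : ℕ => ((d + (k - p) : ℕ) : ℝ) / k) atTop (𝓝 1) := by
    have h1 : Tendsto (fun k : ℕ => 1 + ((d : ℝ) - p) / k) atTop (𝓝 (1 + 0)) :=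
      tendsto_const_nhds.add (tendsto_const_div_atTop_nhds_zero_nat _)
    rw [add_zero] at h1
    refine h1.congr' ?_
    filter_upwards [eventually_ge_atTop (max p 1)] with k hk
    have hk1 : p ≤ k := (le_max_left _ _).trans hk
    have hk2 : 1 ≤ k := (le_max_right _ _).trans hk
    have hk3 : (k : ℝ) ≠ 0 := by positivity
    push_cast [hk1]
    field_simp
    ring
  have hz : ∀ᶠ N : ℕ in atTop, ((N : ℝ) ^ d / d.factorial) ≠ 0 := by
    filter_upwards [eventually_ge_atTop 1] with N hN1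
    positivity
  have h2 := (Asymptotics.isEquivalent_iff_tendsto_one hz).1 (isEquivalent_choose d)
  have h3 := (h2.comp hN).mul (hN'.pow d)
  rw [one_pow, one_mul] at h3
  refine h3.congr' ?_
  filter_upwards [eventually_ge_atTop (p + 1)] with k hk
  have hk1 : 0 < k - p := by omega
  have hk2 : (k : ℝ) ≠ 0 := by
    have : 0 < k := by omega
    positivity
  have hk3 : ((d + (k - p) : ℕ) : ℝ) ≠ 0 := by
    have : 0 < d + (k - p) := by omega
    positivity
  simp only [Function.comp_apply, Pi.div_apply]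
  rw [Nat.multichoose_eq]
  have h4 : (d + 1 + (k - p) - 1).choose (k - p) = (d + (k - p)).choose d := by
    rw [show d + 1 + (k - p) - 1 = d + (k - p) by omega, Nat.choose_symm_add]
  rw [h4]
  have h5 : (d.factorial : ℝ) ≠ 0 := by positivity
  rw [div_pow]
  field_simp

theorem simplexCount (h' : IdxPos) : SimplexCount := by
  classical
  intro n τ h0 hτ
  have hcard := card_rbox h0 hτ
  have hfin : Finite (RBox τ) := Nat.finite_of_card_ne_zero (by rw [hcard]; exact h' n _)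
  have : Fintype (RBox τ) := Fintype.ofFinite _
  obtain ⟨p, hp, hc⟩ := exists_p τ
  obtain ⟨d, hd⟩ : ∃ d, τ.card = d + 1 := ⟨τ.card - 1, by have := h0.card_pos; omega⟩
  have h1 : Tendsto (fun k : ℕ => ∑ b : RBox τ,
      (d.factorial : ℝ) * (Nat.multichoose (d + 1) (k - p b) : ℝ) / (k : ℝ) ^ d)
      atTop (𝓝 (∑ _b : RBox τ, (1 : ℝ))) :=
    tendsto_finsetSum _ fun b _ => tendsto_multichoose d (p b)
  have h2 : (∑ _b : RBox τ, (1 : ℝ)) = vol τ := by
    rw [← hcard, Nat.card_eq_fintype_card]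
    simp
  rw [h2] at h1
  refine h1.congr' ?_
  filter_upwards [eventually_ge_atTop τ.card] with k hk
  have h3 := card_XX hτ p hp hc k hk
  unfold XX at h3
  rw [h3, hd]
  simp only [Nat.add_sub_cancel]
  push_cast
  rw [Finset.mul_sum, Finset.sum_div]

end Mono
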